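import Pool.Agent.Helper95.HV.Stmts
import Pool.Agent.Helper14.PW.POE
import Pool.Agent.Helper72.PM.PINM

/-!
# Row DBS: the double commutator of the Coulomb energy with a field that vanishes at the nuclei
-/

set_option autoImplicit false

namespace Pool.Agent.Helper32.HV

open MeasureTheory Filter Topology Pool.Agent.Helper95.PW Pool.Agent.Helper95.LN
open Pool.Agent.Helper95.CF Pool.Agent.Helper95.HV Pool.Agent.Helper14.PW

/-! ### bounds -/

theorem cs_pd {f : R3 → ℝ} (hc : HasCompactSupport f) (i : Fin 3) :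
    HasCompactSupport (pd i f) := by
  unfold pd
  exact hc.fderiv_apply (𝕜 := ℝ) _

theorem sm_bd {f : R3 → ℝ} (hf : ContDiff ℝ (⊤ : ℕ∞) f) (hc : HasCompactSupport f) :
    ∃ C, ∀ y, |f y| ≤ C := by
  obtain ⟨C, hC⟩ := hf.continuous.bounded_above_of_compact_support hc
  exact ⟨C, hC⟩

theorem fam_bd {ι : Type} [Fintype ι] (f : ι → R3 → ℝ) (h : ∀ i, ∃ C, ∀ y, |f i y| ≤ C) :
    ∃ C, 0 ≤ C ∧ ∀ i y, |f i y| ≤ C := by
  choose C hC using h
  refine ⟨∑ i, |C i|, Finset.sum_nonneg fun i _ => abs_nonneg _, fun i y => ?_⟩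
  exact ((hC i y).trans (le_abs_self _)).trans
    (Finset.single_le_sum (f := fun i => |C i|) (fun j _ => abs_nonneg _) (Finset.mem_univ i))

theorem sm_lip {f : R3 → ℝ} (hf : ContDiff ℝ (⊤ : ℕ∞) f) (hc : HasCompactSupport f) :
    ∃ B, 0 ≤ B ∧ ∀ x y, |f x - f y| ≤ B * nr (x - y) := by
  obtain ⟨C, hC0, hC⟩ := fam_bd (fun i : Fin 3 => pd i f)
    fun i => sm_bd (poe_pd_cd hf i) (cs_pd hc i)
  exact ⟨3 * C, by positivity, fun x y => poe_lip (hf.differentiable (by simp)) hC0 hC x y⟩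

theorem fam_lip {ι : Type} [Fintype ι] (f : ι → R3 → ℝ)
    (h : ∀ i, ∃ B, 0 ≤ B ∧ ∀ x y, |f i x - f i y| ≤ B * nr (x - y)) :
    ∃ B, 0 ≤ B ∧ ∀ i x y, |f i x - f i y| ≤ B * nr (x - y) := by
  choose C hC0 hC using h
  refine ⟨∑ i, C i, Finset.sum_nonneg fun i _ => hC0 i, fun i x y => ?_⟩
  exact (hC i x y).trans (mul_le_mul_of_nonneg_right
    (Finset.single_le_sum (f := fun i => C i) (fun j _ => hC0 j) (Finset.mem_univ i))
    (poe_nr_nonneg _))

theorem scale_ex {g : R3 → ℝ} (hg : ContDiff ℝ (⊤ : ℕ∞) g) (hc : HasCompactSupport g) {ρ : ℝ}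
    (hρ : 0 < ρ) : ∃ K, Scale g K ρ := by
  have s1 := fun i : Fin 3 => poe_pd_cd hg i
  have c1 := fun i : Fin 3 => cs_pd hc i
  have s2 := fun i j : Fin 3 => poe_pd_cd (s1 j) i
  have c2 := fun i j : Fin 3 => cs_pd (c1 j) i
  have s3 := fun i j l : Fin 3 => poe_pd_cd (s2 j l) i
  have c3 := fun i j l : Fin 3 => cs_pd (c2 j l) i
  have s4 := fun i j l m : Fin 3 => poe_pd_cd (s3 j l m) i
  have c4 := fun i j l m : Fin 3 => cs_pd (c3 j l m) i
  obtain ⟨C1, h10, h1⟩ := fam_bd (fun i : Fin 3 => pd i g) fun i => sm_bd (s1 i) (c1 i)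
  obtain ⟨C2, h20, h2⟩ := fam_bd (fun p : Fin 3 × Fin 3 => pd p.1 (pd p.2 g))
    fun p => sm_bd (s2 p.1 p.2) (c2 p.1 p.2)
  obtain ⟨C3, h30, h3⟩ := fam_bd (fun p : Fin 3 × Fin 3 × Fin 3 => pd p.1 (pd p.2.1 (pd p.2.2 g)))
    fun p => sm_bd (s3 p.1 p.2.1 p.2.2) (c3 p.1 p.2.1 p.2.2)
  obtain ⟨C4, h40, h4⟩ := fam_bd (fun p : Fin 3 × Fin 3 × Fin 3 × Fin 3 =>
    pd p.1 (pd p.2.1 (pd p.2.2.1 (pd p.2.2.2 g))))
    fun p => sm_bd (s4 p.1 p.2.1 p.2.2.1 p.2.2.2) (c4 p.1 p.2.1 p.2.2.1 p.2.2.2)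
  have p2 : 0 ≤ C2 * ρ := by positivity
  have p3 : 0 ≤ C3 * ρ ^ 2 := by positivity
  have p4 : 0 ≤ C4 * ρ ^ 3 := by positivity
  refine ⟨C1 + C2 * ρ + C3 * ρ ^ 2 + C4 * ρ ^ 3, hg, hc, fun i y => ?_, fun i j y => ?_,
    fun i j l y => ?_, fun i j l m y => ?_⟩
  · exact (h1 i y).trans (by linarith)
  · rw [le_div_iff₀ hρ]
    have := mul_le_mul_of_nonneg_right (h2 (i, j) y) hρ.le
    simp only at this
    linarith
  · rw [le_div_iff₀ (by positivity)]
    have := mul_le_mul_of_nonneg_right (h3 (i, j, l) y) (by positivity : 0 ≤ ρ ^ 2)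
    simp only at this
    linarith
  · rw [le_div_iff₀ (by positivity)]
    have := mul_le_mul_of_nonneg_right (h4 (i, j, l, m) y) (by positivity : 0 ≤ ρ ^ 3)
    simp only at this
    linarith

theorem poea_cs {g : R3 → ℝ} (hc : HasCompactSupport g) (i : Fin 3) :
    HasCompactSupport (poea g i) := by
  refine hc.mono' fun y hy => ?_
  by_contra h
  apply hy
  have h1 : fderiv ℝ g y = 0 :=
    image_eq_zero_of_notMem_tsupport fun h2 => h (tsupport_fderiv_subset ℝ h2)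
  unfold poea
  refine Finset.sum_eq_zero fun j _ => ?_
  have : pd j g y = 0 := by
    unfold pd
    rw [h1]
    rfl
  rw [this, zero_mul]

/-- limits of integrals -/
theorem lim_int {n : ℕ} (F : ℕ → Cf n → ℝ) (G b : Cf n → ℝ)
    (hF : ∀ m, AEStronglyMeasurable (F m) volume) (hb : Integrable b)
    (hle : ∀ m, ∀ᵐ x, |F m x| ≤ b x)
    (hlim : ∀ᵐ x, Tendsto (fun m => F m x) atTop (𝓝 (G x))) :
    Integrable G ∧ Tendsto (fun m => ∫ x, F m x) atTop (𝓝 (∫ x, G x)) := by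
  have hG : AEStronglyMeasurable G volume := aestronglyMeasurable_of_tendsto_ae atTop hF hlim
  refine ⟨hb.mono' hG ?_, tendsto_integral_of_dominated_convergence b hF hb hle hlim⟩
  filter_upwards [ae_all_iff.2 hle, hlim] with x h1 h2
  exact le_of_tendsto' h2.norm h1

/-! ### the pairs -/

/-- the expression for the second derivative, with `w` for the inverse distance -/
noncomputable def eT {n : ℕ} (g : R3 → ℝ) (k l : Fin n) (w : ℝ) (x : Cf n) : ℝ :=
  -(((pd 0 g (x k) - pd 0 g (x l)) ^ 2 + (pd 1 g (x k) - pd 1 g (x l)) ^ 2 +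
        (pd 2 g (x k) - pd 2 g (x l)) ^ 2) +
        ((x k 0 - x l 0) * (poea g 0 (x k) - poea g 0 (x l)) +
        (x k 1 - x l 1) * (poea g 1 (x k) - poea g 1 (x l)) +
        (x k 2 - x l 2) * (poea g 2 (x k) - poea g 2 (x l)))) * w ^ 3 +
      3 * ((x k 0 - x l 0) * (pd 0 g (x k) - pd 0 g (x l)) +
        (x k 1 - x l 1) * (pd 1 g (x k) - pd 1 g (x l)) +
        (x k 2 - x l 2) * (pd 2 g (x k) - pd 2 g (x l))) ^ 2 * w ^ 5

/-- the pair term of `D2` -/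
noncomputable def pT {n : ℕ} (g : R3 → ℝ) (k l : Fin n) (x : Cf n) : ℝ :=
  Tq (x k - x l) (gv g (x k) - gv g (x l)) (gv g (x k) - gv g (x l)) -
      (∑ i, (gq g (x k) i - gq g (x l) i) * (x k i - x l i)) / nr (x k - x l) ^ 3

theorem gq_eq (g : R3 → ℝ) (y : R3) (i : Fin 3) : gq g y i = poea g i y :=
  Finset.sum_congr rfl fun _ _ => mul_comm _ _

theorem pT_eq {n : ℕ} (g : R3 → ℝ) (k l : Fin n) (x : Cf n) :
    pT g k l x = eT g k l (nr (x k - x l))⁻¹ x := by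
  unfold pT eT Tq
  simp only [gq_eq, Fin.sum_univ_three, Pi.sub_apply, gv, div_eq_mul_inv, inv_pow]
  ring

theorem eT_alg {z0 z1 z2 d0 d1 d2 b0 b1 b2 R B B' w : ℝ} (hR : 0 < R) (hB : 0 ≤ B)
    (hB' : 0 ≤ B') (hw : 0 ≤ w) (hwR : w * R ≤ 1)
    (a0 : |z0| ≤ R) (a1 : |z1| ≤ R) (a2 : |z2| ≤ R)
    (h0 : |d0| ≤ B * R) (h1 : |d1| ≤ B * R) (h2 : |d2| ≤ B * R)
    (k0 : |b0| ≤ B' * R) (k1 : |b1| ≤ B' * R) (k2 : |b2| ≤ B' * R) :
    |-((d0 ^ 2 + d1 ^ 2 + d2 ^ 2) + (z0 * b0 + z1 * b1 + z2 * b2)) * w ^ 3 +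
      3 * (z0 * d0 + z1 * d1 + z2 * d2) ^ 2 * w ^ 5| ≤ (30 * B ^ 2 + 3 * B') * (1 / R) := by
  have hd : ∀ d : ℝ, |d| ≤ B * R → d ^ 2 ≤ B ^ 2 * R ^ 2 := by
    intro d h
    have := pow_le_pow_left₀ (abs_nonneg d) h 2
    rw [sq_abs] at this
    calc d ^ 2 ≤ (B * R) ^ 2 := this
      _ = B ^ 2 * R ^ 2 := by ring
  have hzb : ∀ z b c : ℝ, 0 ≤ c → |z| ≤ R → |b| ≤ c * R → |z * b| ≤ c * R ^ 2 := by
    intro z b c hc hz hb
    rw [abs_mul]
    calc |z| * |b| ≤ R * (c * R) := mul_le_mul hz hb (abs_nonneg _) hR.le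
      _ = c * R ^ 2 := by ring
  set S := d0 ^ 2 + d1 ^ 2 + d2 ^ 2 with hS
  have hS0 : 0 ≤ S := by positivity
  have hSle : S ≤ 3 * B ^ 2 * R ^ 2 := by
    have := hd d0 h0
    have := hd d1 h1
    have := hd d2 h2
    rw [hS]
    linarith
  set Y := z0 * b0 + z1 * b1 + z2 * b2 with hY
  have hYle : |Y| ≤ 3 * B' * R ^ 2 := by
    have e0 := hzb z0 b0 B' hB' a0 k0
    have e1 := hzb z1 b1 B' hB' a1 k1
    have e2 := hzb z2 b2 B' hB' a2 k2
    calc |Y| ≤ |z0 * b0| + |z1 * b1| + |z2 * b2| := abs_add_three _ _ _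
      _ ≤ _ := by linarith
  set D := z0 * d0 + z1 * d1 + z2 * d2 with hD
  have hDle : |D| ≤ 3 * B * R ^ 2 := by
    have e0 := hzb z0 d0 B hB a0 h0
    have e1 := hzb z1 d1 B hB a1 h1
    have e2 := hzb z2 d2 B hB a2 h2
    calc |D| ≤ |z0 * d0| + |z1 * d1| + |z2 * d2| := abs_add_three _ _ _
      _ ≤ _ := by linarith
  have hD2 : D ^ 2 ≤ 9 * B ^ 2 * R ^ 4 := by
    have := pow_le_pow_left₀ (abs_nonneg D) hDle 2
    rw [sq_abs] at this
    calc D ^ 2 ≤ (3 * B * R ^ 2) ^ 2 := this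
      _ = _ := by ring
  have hwR0 : 0 ≤ w * R := by positivity
  have q3 : R ^ 2 * w ^ 3 ≤ w := by
    have h3 : (w * R) ^ 2 ≤ 1 := pow_le_one₀ hwR0 hwR
    calc R ^ 2 * w ^ 3 = (w * R) ^ 2 * w := by ring
      _ ≤ 1 * w := mul_le_mul_of_nonneg_right h3 hw
      _ = w := one_mul w
  have q5 : R ^ 4 * w ^ 5 ≤ w := by
    have h3 : (w * R) ^ 4 ≤ 1 := pow_le_one₀ hwR0 hwR
    calc R ^ 4 * w ^ 5 = (w * R) ^ 4 * w := by ring
      _ ≤ 1 * w := mul_le_mul_of_nonneg_right h3 hw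
      _ = w := one_mul w
  have hw1 : w ≤ 1 / R := by
    rw [le_div_iff₀ hR]
    exact hwR
  have t1 : |-(S + Y) * w ^ 3| ≤ (3 * B ^ 2 + 3 * B') * w := by
    rw [abs_mul, abs_neg, abs_of_nonneg (pow_nonneg hw 3)]
    have h3 : |S + Y| ≤ (3 * B ^ 2 + 3 * B') * R ^ 2 := by
      refine (abs_add_le _ _).trans ?_
      rw [abs_of_nonneg hS0]
      linarith
    calc |S + Y| * w ^ 3 ≤ (3 * B ^ 2 + 3 * B') * R ^ 2 * w ^ 3 :=
          mul_le_mul_of_nonneg_right h3 (pow_nonneg hw 3)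
      _ = (3 * B ^ 2 + 3 * B') * (R ^ 2 * w ^ 3) := by ring
      _ ≤ _ := mul_le_mul_of_nonneg_left q3 (by positivity)
  have t2 : |3 * D ^ 2 * w ^ 5| ≤ 27 * B ^ 2 * w := by
    rw [abs_of_nonneg (by positivity)]
    calc 3 * D ^ 2 * w ^ 5 ≤ 3 * (9 * B ^ 2 * R ^ 4) * w ^ 5 := by
          apply mul_le_mul_of_nonneg_right _ (pow_nonneg hw 5)
          linarith
      _ = 27 * B ^ 2 * (R ^ 4 * w ^ 5) := by ring
      _ ≤ _ := mul_le_mul_of_nonneg_left q5 (by positivity)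
  calc |-(S + Y) * w ^ 3 + 3 * D ^ 2 * w ^ 5| ≤ |-(S + Y) * w ^ 3| + |3 * D ^ 2 * w ^ 5| :=
        abs_add_le _ _
    _ ≤ (30 * B ^ 2 + 3 * B') * w := by linarith
    _ ≤ _ := mul_le_mul_of_nonneg_left hw1 (by positivity)

theorem pair_id {n : ℕ} (hPAN : ST_PAN) (hSTB : ST_STB) {g : R3 → ℝ}
    (hg : ContDiff ℝ (⊤ : ℕ∞) g) (hc : HasCompactSupport g) {k l : Fin n} (hkl : k < l)
    {v : Cf n → ℝ} (hv : ContDiff ℝ (⊤ : ℕ∞) v) (hvc : HasCompactSupport v)
    (J3 : Integrable (fun x => rep x * (v x * v x)))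
    (JF : Integrable (fun x => rep x * (Pg g v x ^ 2 + Pg g (Pg g v) x * v x))) :
    Integrable (fun x => pT g k l x * v x ^ 2) ∧
    ∫ x, 1 / nr (x k - x l) * (Pg g v x ^ 2 + Pg g (Pg g v) x * v x) =
      1 / 2 * ∫ x, pT g k l x * v x ^ 2 := by
  obtain ⟨hp, hpc⟩ := poe_sm hSTB hg hv hvc
  obtain ⟨hpp, hppc⟩ := poe_sm hSTB hg hp hpc
  obtain ⟨B, hB, hBL⟩ := fam_lip (fun i : Fin 3 => pd i g)
    fun i => sm_lip (poe_pd_cd hg i) (cs_pd hc i)
  obtain ⟨B', hB', hBL'⟩ := fam_lip (fun i : Fin 3 => poea g i)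
    fun i => sm_lip (poea_cd hg i) (poea_cs hc i)
  have cF : Continuous (fun x => Pg g v x ^ 2 + Pg g (Pg g v) x * v x) :=
    (hp.continuous.pow 2).add (hpp.continuous.mul hv.continuous)
  have c3 : Continuous (fun x => v x * v x) := hv.continuous.mul hv.continuous
  have t1 := poe_lim hkl.ne cF (poe_pi hkl cF JF)
  have Jb := (poe_pi hkl c3 J3).const_mul (30 * B ^ 2 + 3 * B')
  have hT : ∀ (e : ℝ), 0 < e → ∀ x : Cf n, poeD g (poeh g k l e) x = eT g k l (poew k l e x) x :=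
    fun e he x => poeD_h hg k l he x
  obtain ⟨hint, t2⟩ := lim_int
    (fun m x => poeD g (poeh g k l (1 / ((m : ℝ) + 1))) x * v x ^ 2)
    (fun x => pT g k l x * v x ^ 2)
    (fun x => (30 * B ^ 2 + 3 * B') * (1 / nr (x k - x l) * (v x * v x)))
    (fun m => by
      have he : (0 : ℝ) < 1 / ((m : ℝ) + 1) := by positivity
      exact ((poe_Dc hg (poeh_cd hg k l he)).mul (hv.continuous.pow 2)).aestronglyMeasurable)
    Jb
    (fun m => by
      filter_upwards [poe_null hkl.ne] with x hx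
      have he : (0 : ℝ) < 1 / ((m : ℝ) + 1) := by positivity
      generalize 1 / ((m : ℝ) + 1) = e at he
      have hpos : 0 < nr (x k - x l) := lt_of_le_of_ne (poe_nr_nonneg _) (Ne.symm hx)
      have hw : 0 < poew k l e x := inv_pos.2 (Real.sqrt_pos.2 (poeq_pos k l he x))
      have hw1 : poew k l e x ≤ 1 / nr (x k - x l) := by
        unfold poew
        rw [one_div (nr (x k - x l))]
        refine inv_anti₀ hpos ?_
        refine Real.le_sqrt_of_sq_le ?_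
        rw [poe_q_eq]
        have := sq_nonneg e
        linarith
      have h2 : |poeD g (poeh g k l e) x| ≤ (30 * B ^ 2 + 3 * B') * (1 / nr (x k - x l)) := by
        rw [hT e he x]
        unfold eT
        refine eT_alg hpos hB hB' hw.le ?_ (poe_abs_le_nr (x k - x l) 0)
          (poe_abs_le_nr (x k - x l) 1) (poe_abs_le_nr (x k - x l) 2)
          (hBL 0 _ _) (hBL 1 _ _) (hBL 2 _ _) (hBL' 0 _ _) (hBL' 1 _ _) (hBL' 2 _ _)
        rwa [le_div_iff₀ hpos] at hw1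
      rw [abs_mul, abs_of_nonneg (sq_nonneg (v x))]
      calc |poeD g (poeh g k l e) x| * v x ^ 2
          ≤ (30 * B ^ 2 + 3 * B') * (1 / nr (x k - x l)) * v x ^ 2 :=
            mul_le_mul_of_nonneg_right h2 (sq_nonneg _)
        _ = _ := by ring)
    (by
      filter_upwards [poe_null hkl.ne] with x hx
      have hpos : 0 < nr (x k - x l) := lt_of_le_of_ne (poe_nr_nonneg _) (Ne.symm hx)
      refine Tendsto.mul ?_ tendsto_const_nhds
      have h3 : Tendsto (fun m : ℕ => poew k l (1 / ((m : ℝ) + 1)) x) atTop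
          (𝓝 (nr (x k - x l))⁻¹) := by
        unfold poew
        refine Tendsto.inv₀ ?_ hx
        have h1 : Tendsto (fun m : ℕ => nr (x k - x l) ^ 2 + (1 / ((m : ℝ) + 1)) ^ 2) atTop
            (𝓝 (nr (x k - x l) ^ 2 + 0 ^ 2)) :=
          tendsto_const_nhds.add (tendsto_one_div_add_atTop_nhds_zero_nat.pow 2)
        have h2 := h1.sqrt
        rw [show nr (x k - x l) ^ 2 + (0 : ℝ) ^ 2 = nr (x k - x l) ^ 2 by ring,
          Real.sqrt_sq hpos.le] at h2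
        refine h2.congr fun m => ?_
        rw [poe_q_eq]
      rw [pT_eq]
      have h4 : Tendsto (fun m : ℕ => eT g k l (poew k l (1 / ((m : ℝ) + 1)) x) x) atTop
          (𝓝 (eT g k l (nr (x k - x l))⁻¹ x)) := by
        unfold eT
        exact ((h3.pow 3).const_mul _).add ((h3.pow 5).const_mul _)
      refine h4.congr fun m => ?_
      exact (hT _ (by positivity) x).symm)
  refine ⟨hint, ?_⟩
  have key : ∀ m : ℕ, ∫ x, poew k l (1 / ((m : ℝ) + 1)) x *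
      (Pg g v x ^ 2 + Pg g (Pg g v) x * v x) =
      1 / 2 * ∫ x, poeD g (poeh g k l (1 / ((m : ℝ) + 1))) x * v x ^ 2 := by
    intro m
    have he : (0 : ℝ) < 1 / ((m : ℝ) + 1) := by positivity
    generalize 1 / ((m : ℝ) + 1) = e at he
    have hWc : ContDiff ℝ (⊤ : ℕ∞) (poew k l e) := poew_cd k l he
    have hhc : ContDiff ℝ (⊤ : ℕ∞) (poeh g k l e) := poeh_cd hg k l he
    have j1 := poe_id1 hPAN hg hv hvc hp hpc rfl hWc hhc (fun x => poeD_w k l he x)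
    have j2 := poe_id2 hPAN hg hv hvc hp rfl hhc
    have I1 : Integrable (fun x => poew k l e x * Pg g v x ^ 2) :=
      poe_int2 hpc hp.continuous hWc.continuous
    have I2 : Integrable (fun x => poew k l e x * (Pg g (Pg g v) x * v x)) := by
      have := poe_int3 hvc hv.continuous hpp.continuous hWc.continuous
      refine this.congr (Filter.Eventually.of_forall fun x => ?_)
      simp only
      ring
    have a1 : ∫ x, poew k l e x * (Pg g v x ^ 2 + Pg g (Pg g v) x * v x) =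
        (∫ x, poew k l e x * Pg g v x ^ 2) + ∫ x, poew k l e x * (Pg g (Pg g v) x * v x) := by
      rw [← integral_add I1 I2]
      congr 1
      funext x
      ring
    rw [a1, j1]
    linarith
  have t3 := (t2.const_mul (1 / 2)).congr fun m => (key m).symm
  exact tendsto_nhds_unique t1 t3

/-! ### the nuclei -/

/-- the term of a nucleus at `a` -/
noncomputable def N2 (g : R3 → ℝ) (a y : R3) : ℝ :=
  Tq (y - a) (gv g y) (gv g y) - (∑ i, gq g y i * (y i - a i)) / nr (y - a) ^ 3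

theorem pdM {s : ℝ} (hs : 0 < s) (a : R3) (i : Fin 3) :
    pd i (pinM_U a s) = fun y => pin_A s (pin_q s (y - a)) * (2 * (y i - a i)) := by
  funext y
  have h1 : pd i (pinM_U a s) y = pd i (pin_U s) (y - a) := by
    have e : pinM_U a s = fun z => pin_U s (z - a) := rfl
    unfold pd
    rw [e, fderiv_comp_sub]
  rw [h1, pin_pdU hs]
  rfl

theorem pddM {s : ℝ} (hs : 0 < s) (a : R3) (i j : Fin 3) (y : R3) :
    pd j (pd i (pinM_U a s)) y = pin_B s (pin_q s (y - a)) * (2 * (y j - a j)) *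
      (2 * (y i - a i)) + pin_A s (pin_q s (y - a)) * (2 * (if i = j then 1 else 0)) := by
  have h1 : pd i (pinM_U a s) = fun z => pd i (pin_U s) (z - a) := by
    funext z
    have e : pinM_U a s = fun z => pin_U s (z - a) := rfl
    unfold pd
    rw [e, fderiv_comp_sub]
  have h2 : pd j (pd i (pinM_U a s)) y = pd j (pd i (pin_U s)) (y - a) := by
    rw [h1]
    show fderiv ℝ (fun z => pd i (pin_U s) (z - a)) y (Pi.single j 1) =
      fderiv ℝ (pd i (pin_U s)) (y - a) (Pi.single j 1)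
    rw [fderiv_comp_sub]
  rw [h2, pin_pddU hs]
  rfl

theorem nuc_lim {g : R3 → ℝ} (hg : ContDiff ℝ (⊤ : ℕ∞) g) (a : R3) {y : R3} (hy : y - a ≠ 0) :
    Tendsto (fun j : ℕ => pin_D g (pin_D g (pinM_U a (1 / ((j : ℝ) + 1)))) y) atTop
      (𝓝 (N2 g a y)) := by
  have ha := pin_nrpos hy
  have h1 : Tendsto (fun m : ℕ => nr (y - a) ^ 2 + (1 / ((m : ℝ) + 1)) ^ 2) atTop
      (𝓝 (nr (y - a) ^ 2 + 0 ^ 2)) :=
    tendsto_const_nhds.add (tendsto_one_div_add_atTop_nhds_zero_nat.pow 2)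
  have h2 := h1.sqrt
  rw [show nr (y - a) ^ 2 + (0 : ℝ) ^ 2 = nr (y - a) ^ 2 by ring, Real.sqrt_sq ha.le] at h2
  have hqn : ∀ s : ℝ, pin_q s (y - a) = nr (y - a) ^ 2 + s ^ 2 := by
    intro s
    unfold nr pin_q
    rw [Real.sq_sqrt (by positivity)]
  have h3 : Tendsto (fun m : ℕ => pin_f (pin_q (1 / ((m : ℝ) + 1)) (y - a))) atTop
      (𝓝 (nr (y - a))⁻¹) := by
    refine (h2.inv₀ ha.ne').congr fun m => ?_
    unfold pin_f
    rw [hqn]
  have h4 : Tendsto (fun m : ℕ => pin_A (1 / ((m : ℝ) + 1))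
      (pin_q (1 / ((m : ℝ) + 1)) (y - a))) atTop
      (𝓝 (-(1 / 2) * (nr (y - a))⁻¹ ^ 3 - 3 / 4 * 0 ^ 2 * (nr (y - a))⁻¹ ^ 5)) := by
    unfold pin_A
    exact ((h3.pow 3).const_mul _).sub
      (((tendsto_one_div_add_atTop_nhds_zero_nat.pow 2).const_mul (3 / 4)).mul (h3.pow 5))
  have h5 : Tendsto (fun m : ℕ => pin_B (1 / ((m : ℝ) + 1))
      (pin_q (1 / ((m : ℝ) + 1)) (y - a))) atTop
      (𝓝 (3 / 4 * (nr (y - a))⁻¹ ^ 5 + 15 / 8 * 0 ^ 2 * (nr (y - a))⁻¹ ^ 7)) := by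
    unfold pin_B
    exact ((h3.pow 5).const_mul _).add
      (((tendsto_one_div_add_atTop_nhds_zero_nat.pow 2).const_mul (15 / 8)).mul (h3.pow 7))
  have h6 : Tendsto (fun m : ℕ => ∑ i, pd i g y * ∑ j, (pd i (pd j g) y *
      (pin_A (1 / ((m : ℝ) + 1)) (pin_q (1 / ((m : ℝ) + 1)) (y - a)) * (2 * (y j - a j))) +
      pd j g y * (pin_B (1 / ((m : ℝ) + 1)) (pin_q (1 / ((m : ℝ) + 1)) (y - a)) *
        (2 * (y i - a i)) * (2 * (y j - a j)) +
        pin_A (1 / ((m : ℝ) + 1)) (pin_q (1 / ((m : ℝ) + 1)) (y - a)) *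
          (2 * (if j = i then 1 else 0))))) atTop
      (𝓝 (∑ i, pd i g y * ∑ j, (pd i (pd j g) y *
      ((-(1 / 2) * (nr (y - a))⁻¹ ^ 3 - 3 / 4 * 0 ^ 2 * (nr (y - a))⁻¹ ^ 5) *
        (2 * (y j - a j))) +
      pd j g y * ((3 / 4 * (nr (y - a))⁻¹ ^ 5 + 15 / 8 * 0 ^ 2 * (nr (y - a))⁻¹ ^ 7) *
        (2 * (y i - a i)) * (2 * (y j - a j)) +
        (-(1 / 2) * (nr (y - a))⁻¹ ^ 3 - 3 / 4 * 0 ^ 2 * (nr (y - a))⁻¹ ^ 5) *
          (2 * (if j = i then 1 else 0)))))) :=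
    tendsto_finsetSum _ fun i _ => (tendsto_finsetSum _ fun j _ =>
      ((h4.mul_const _).const_mul _).add
        ((((h5.mul_const _).mul_const _).add (h4.mul_const _)).const_mul _)).const_mul _
  have h7 : (∑ i, pd i g y * ∑ j, (pd i (pd j g) y *
      ((-(1 / 2) * (nr (y - a))⁻¹ ^ 3 - 3 / 4 * 0 ^ 2 * (nr (y - a))⁻¹ ^ 5) *
        (2 * (y j - a j))) +
      pd j g y * ((3 / 4 * (nr (y - a))⁻¹ ^ 5 + 15 / 8 * 0 ^ 2 * (nr (y - a))⁻¹ ^ 7) *
        (2 * (y i - a i)) * (2 * (y j - a j)) +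
        (-(1 / 2) * (nr (y - a))⁻¹ ^ 3 - 3 / 4 * 0 ^ 2 * (nr (y - a))⁻¹ ^ 5) *
          (2 * (if j = i then 1 else 0))))) = N2 g a y := by
    unfold N2 Tq gq gv
    have e3 : ∀ t : ℝ, t / nr (y - a) ^ 3 = t * (nr (y - a))⁻¹ ^ 3 := fun t => by
      rw [inv_pow, div_eq_mul_inv]
    have e5 : ∀ t : ℝ, t / nr (y - a) ^ 5 = t * (nr (y - a))⁻¹ ^ 5 := fun t => by
      rw [inv_pow, div_eq_mul_inv]
    rw [e3, e3, e5]
    simp only [Fin.sum_univ_three, Pi.sub_apply]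
    simp
    ring
  rw [h7] at h6
  refine h6.congr fun m => ?_
  have hs : (0 : ℝ) < 1 / ((m : ℝ) + 1) := by positivity
  rw [pin_DD hg (pinM_smU a hs)]
  refine Finset.sum_congr rfl fun i _ => ?_
  congr 1
  refine Finset.sum_congr rfl fun j _ => ?_
  rw [pddM hs, pdM hs]

theorem nuc_id {n : ℕ} (hPAN : ST_PAN) (hSTB : ST_STB) (h5 : ST_INTM) {g : R3 → ℝ}
    (hg : ContDiff ℝ (⊤ : ℕ∞) g) (hc : HasCompactSupport g) {ρ : ℝ} (hρ : 0 < ρ) (a : R3)
    (hga : ∀ y, nr (y - a) < ρ → ∀ i, pd i g y = 0)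
    {v : Cf n → ℝ} (hv : ContDiff ℝ (⊤ : ℕ∞) v) (hvc : HasCompactSupport v) :
    Integrable (fun x : Cf n => (∑ k, N2 g a (x k)) * v x ^ 2) ∧
    Integrable (fun x : Cf n => (∑ k, 1 / nr (x k - a)) *
      (Pg g v x ^ 2 + Pg g (Pg g v) x * v x)) ∧
    ∫ x, (∑ k, 1 / nr (x k - a)) * (Pg g v x ^ 2 + Pg g (Pg g v) x * v x) =
      1 / 2 * ∫ x : Cf n, (∑ k, N2 g a (x k)) * v x ^ 2 := by
  obtain ⟨hp, hpc⟩ := poe_sm hSTB hg hv hvc
  obtain ⟨hpp, hppc⟩ := poe_sm hSTB hg hp hpc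
  obtain ⟨K, hK⟩ := scale_ex hg hc hρ
  have L1 := pinM_lim h5 a hp hpc hp hpc
  have L2 := pinM_lim h5 a hpp hppc hv hvc
  have I1 := pinM_int h5 a hp hpc hp hpc
  have I2 := pinM_int h5 a hpp hppc hv hvc
  have Jb := (pinM_int h5 a hv hvc hv hvc).const_mul (140 * K ^ 2 / ρ ^ 2)
  have hptb : ∀ s : ℝ, 0 < s → ∀ y : R3, y - a ≠ 0 →
      |pin_D g (pin_D g (pinM_U a s)) y| ≤ 140 * K ^ 2 / ρ ^ 2 * (1 / nr (y - a)) := by
    intro s hs y hy
    by_cases h : nr (y - a) < ρ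
    · have h0 : pin_D g (pin_D g (pinM_U a s)) y = 0 := by
        unfold pin_D
        refine Finset.sum_eq_zero fun i _ => ?_
        rw [hga y h i, zero_mul]
      rw [h0, abs_zero]
      have := pin_nrpos hy
      positivity
    · push Not at h
      exact pinM_out a hs hρ hK y h
  obtain ⟨hint, t2⟩ := lim_int
    (fun (j : ℕ) x => pin_S (pin_D g (pin_D g (pinM_U a (1 / ((j : ℝ) + 1))))) x * v x ^ 2)
    (fun x : Cf n => (∑ k, N2 g a (x k)) * v x ^ 2)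
    (fun x : Cf n => 140 * K ^ 2 / ρ ^ 2 * ((∑ k, 1 / nr (x k - a)) * (v x * v x)))
    (fun j => by
      have hs : (0 : ℝ) < 1 / ((j : ℝ) + 1) := by positivity
      exact (((pin_smS (n := n) (pin_smD hg (pin_smD hg (pinM_smU a hs)))).continuous).mul
        (hv.continuous.pow 2)).aestronglyMeasurable)
    Jb
    (fun j => by
      filter_upwards [pinM_ae n a] with x hx
      have hs : (0 : ℝ) < 1 / ((j : ℝ) + 1) := by positivity
      rw [abs_mul, abs_of_nonneg (sq_nonneg (v x))]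
      have h1 : |pin_S (pin_D g (pin_D g (pinM_U a (1 / ((j : ℝ) + 1))))) x| ≤
          140 * K ^ 2 / ρ ^ 2 * ∑ k, 1 / nr (x k - a) := by
        unfold pin_S
        rw [Finset.mul_sum]
        exact (Finset.abs_sum_le_sum_abs _ _).trans
          (Finset.sum_le_sum fun k _ => hptb _ hs _ (hx k))
      calc _ ≤ 140 * K ^ 2 / ρ ^ 2 * (∑ k, 1 / nr (x k - a)) * v x ^ 2 :=
            mul_le_mul_of_nonneg_right h1 (sq_nonneg _)
        _ = _ := by ring)
    (by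
      filter_upwards [pinM_ae n a] with x hx
      refine Tendsto.mul_const _ ?_
      unfold pin_S
      exact tendsto_finsetSum _ fun k _ => nuc_lim hg a (hx k))
  have IF : Integrable (fun x : Cf n => (∑ k, 1 / nr (x k - a)) *
      (Pg g v x ^ 2 + Pg g (Pg g v) x * v x)) := by
    refine (I1.add I2).congr (Filter.Eventually.of_forall fun x => ?_)
    simp only [Pi.add_apply]
    ring
  refine ⟨hint, IF, ?_⟩
  have key : ∀ j : ℕ, (∫ x, pin_S (pinM_U a (1 / ((j : ℝ) + 1))) x * (Pg g v x * Pg g v x)) +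
      (∫ x, pin_S (pinM_U a (1 / ((j : ℝ) + 1))) x * (Pg g (Pg g v) x * v x)) =
      1 / 2 * ∫ x, pin_S (pin_D g (pin_D g (pinM_U a (1 / ((j : ℝ) + 1))))) x * v x ^ 2 := by
    intro j
    have hs : (0 : ℝ) < 1 / ((j : ℝ) + 1) := by positivity
    have h := pin_id hPAN hSTB hg (pinM_smU a hs) hv hvc
    simp only [pow_two] at h ⊢
    exact h
  have t3 := (t2.const_mul (1 / 2)).congr fun j => (key j).symm
  have e := tendsto_nhds_unique (L1.add L2) t3
  rw [← e, ← integral_add I1 I2]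
  congr 1
  funext x
  ring

theorem dbs_one {n M : ℕ} (hPAN : ST_PAN) (hSTB : ST_STB) (h5 : ST_INTM)
    (X : Fin M → R3) (Z : Fin M → ℝ) {g : R3 → ℝ} (hg : ContDiff ℝ (⊤ : ℕ∞) g)
    (hc : HasCompactSupport g) {ρ : ℝ} (hρ : 0 < ρ)
    (hgX : ∀ j y, nr (y - X j) < ρ → ∀ i, pd i g y = 0)
    {v : Cf n → ℝ} (hv : ContDiff ℝ (⊤ : ℕ∞) v) (hvc : HasCompactSupport v) :
    Integrable (fun x : Cf n => D2 X Z g x * v x ^ 2) ∧
    ∫ x, (rep x - ∑ k, pot X Z (x k)) * (Pg g v x ^ 2 + Pg g (Pg g v) x * v x) =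
      1 / 2 * ∫ x, D2 X Z g x * v x ^ 2 := by
  obtain ⟨hp, hpc⟩ := poe_sm hSTB hg hv hvc
  obtain ⟨hpp, hppc⟩ := poe_sm hSTB hg hp hpc
  obtain ⟨A1, A2, -, -⟩ := h5 n M X Z _ _ hp hpc hp hpc
  obtain ⟨B1, B2, -, -⟩ := h5 n M X Z _ _ hpp hppc hv hvc
  have J3 := (h5 n M X Z _ _ hv hvc hv hvc).2.1
  have cF : Continuous (fun x => Pg g v x ^ 2 + Pg g (Pg g v) x * v x) :=
    (hp.continuous.pow 2).add (hpp.continuous.mul hv.continuous)
  have K1 : Integrable (fun x : Cf n => (∑ k, pot X Z (x k)) *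
      (Pg g v x ^ 2 + Pg g (Pg g v) x * v x)) := by
    refine (A1.add B1).congr (Filter.Eventually.of_forall fun x => ?_)
    simp only [Pi.add_apply]
    ring
  have K2 : Integrable (fun x : Cf n => rep x * (Pg g v x ^ 2 + Pg g (Pg g v) x * v x)) := by
    refine (A2.add B2).congr (Filter.Eventually.of_forall fun x => ?_)
    simp only [Pi.add_apply]
    ring
  have HP := fun (k l : Fin n) (hkl : k < l) => pair_id hPAN hSTB hg hc hkl hv hvc J3 K2
  have HN := fun j : Fin M => nuc_id hPAN hSTB h5 hg hc hρ (X j) (hgX j) hv hvc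
  have eV : ∀ x : Cf n, D2 X Z g x * v x ^ 2 =
      (∑ k, ∑ l, if k < l then pT g k l x * v x ^ 2 else 0) -
      ∑ j, Z j * ((∑ k, N2 g (X j) (x k)) * v x ^ 2) := by
    intro x
    have e1 : D2 X Z g x = (∑ k, ∑ l, if k < l then pT g k l x else 0) +
        ∑ k, ∑ j, Z j * (-N2 g (X j) (x k)) := by
      unfold D2 pT N2
      congr 1
      refine Finset.sum_congr rfl fun k _ => Finset.sum_congr rfl fun j _ => ?_
      rw [neg_sub]
    have e2 : ∑ k, ∑ j, Z j * (-N2 g (X j) (x k)) =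
        -∑ j, Z j * ∑ k, N2 g (X j) (x k) := by
      rw [Finset.sum_comm, ← Finset.sum_neg_distrib]
      refine Finset.sum_congr rfl fun j _ => ?_
      rw [← Finset.mul_sum, Finset.sum_neg_distrib]
      ring
    rw [e1, e2, ← sub_eq_add_neg, sub_mul]
    congr 1
    · rw [Finset.sum_mul]
      refine Finset.sum_congr rfl fun k _ => ?_
      rw [Finset.sum_mul]
      refine Finset.sum_congr rfl fun l _ => ?_
      split_ifs
      · rfl
      · exact zero_mul _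
    · rw [Finset.sum_mul]
      refine Finset.sum_congr rfl fun j _ => ?_
      ring
  have IS : ∀ k l : Fin n, Integrable (fun x : Cf n =>
      if k < l then pT g k l x * v x ^ 2 else 0) := by
    intro k l
    split_ifs with hkl
    · exact (HP k l hkl).1
    · exact integrable_zero _ _ _
  have IN : ∀ j : Fin M, Integrable (fun x : Cf n =>
      Z j * ((∑ k, N2 g (X j) (x k)) * v x ^ 2)) := fun j => ((HN j).1).const_mul _
  have I1 : Integrable (fun x : Cf n =>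
      ∑ k, ∑ l, if k < l then pT g k l x * v x ^ 2 else 0) :=
    integrable_finsetSum _ fun k _ => integrable_finsetSum _ fun l _ => IS k l
  have I2 : Integrable (fun x : Cf n => ∑ j, Z j * ((∑ k, N2 g (X j) (x k)) * v x ^ 2)) :=
    integrable_finsetSum _ fun j _ => IN j
  have eV' : (fun x : Cf n => D2 X Z g x * v x ^ 2) = fun x =>
      (∑ k, ∑ l, if k < l then pT g k l x * v x ^ 2 else 0) -
      ∑ j, Z j * ((∑ k, N2 g (X j) (x k)) * v x ^ 2) := funext eV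
  rw [eV']
  refine ⟨I1.sub I2, ?_⟩
  rw [integral_sub I1 I2,
    integral_finsetSum _ fun k _ => integrable_finsetSum _ fun l _ => IS k l,
    integral_finsetSum _ fun j _ => IN j]
  have eL : ∫ x, (rep x - ∑ k, pot X Z (x k)) * (Pg g v x ^ 2 + Pg g (Pg g v) x * v x) =
      (∫ x, rep x * (Pg g v x ^ 2 + Pg g (Pg g v) x * v x)) -
        ∫ x, (∑ k, pot X Z (x k)) * (Pg g v x ^ 2 + Pg g (Pg g v) x * v x) := by
    rw [← integral_sub K2 K1]
    congr 1
    funext x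
    ring
  have eN : ∫ x, (∑ k, pot X Z (x k)) * (Pg g v x ^ 2 + Pg g (Pg g v) x * v x) =
      ∑ j, Z j * (1 / 2 * ∫ x : Cf n, (∑ k, N2 g (X j) (x k)) * v x ^ 2) := by
    have a1 : ∀ x : Cf n, (∑ k, pot X Z (x k)) * (Pg g v x ^ 2 + Pg g (Pg g v) x * v x) =
        ∑ j, Z j * ((∑ k, 1 / nr (x k - X j)) *
          (Pg g v x ^ 2 + Pg g (Pg g v) x * v x)) := by
      intro x
      unfold pot
      rw [Finset.sum_comm, Finset.sum_mul]
      refine Finset.sum_congr rfl fun j _ => ?_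
      have a2 : ∑ k, Z j / nr (x k - X j) = Z j * ∑ k, 1 / nr (x k - X j) := by
        rw [Finset.mul_sum]
        refine Finset.sum_congr rfl fun k _ => ?_
        ring
      rw [a2]
      ring
    simp only [a1]
    rw [integral_finsetSum _ fun j _ => ((HN j).2.1).const_mul (Z j)]
    refine Finset.sum_congr rfl fun j _ => ?_
    rw [integral_const_mul, (HN j).2.2]
  rw [eL, eN, poe_sum cF K2, mul_sub]
  congr 1
  · rw [Finset.mul_sum]
    refine Finset.sum_congr rfl fun k _ => ?_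
    rw [integral_finsetSum _ fun l _ => IS k l, Finset.mul_sum]
    refine Finset.sum_congr rfl fun l _ => ?_
    split_ifs with hkl
    · exact (HP k l hkl).2
    · simp
  · rw [Finset.mul_sum]
    refine Finset.sum_congr rfl fun j _ => ?_
    rw [integral_const_mul]
    ring

theorem DBS (_h1 : ST_VID) (_h2 : ST_IBP) (h3 : ST_PAN) (h4 : ST_STB) (h5 : ST_INTM)
    (_h6 : ST_HA2) (_h7 : ST_HA3) : ST_DBS := by
  intro n M X Z g ρ u hg hc hρ hgX hu
  have h := fun s => dbs_one h3 h4 h5 X Z hg hc hρ hgX (hu s).1 (hu s).2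
  refine ⟨fun s => (h s).1, ?_⟩
  rw [Finset.mul_sum]
  exact Finset.sum_congr rfl fun s _ => (h s).2

end Pool.Agent.Helper32.HV
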